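import Pool.Agent.U379.PI.H

/-!
# Quotients of `Mod_g` in `GL_n` of rings of `p`-power characteristic

Let `Mod_g` be the mapping class group of the closed orientable surface `S` of genus `g` (the classes
of the automorphisms of `π_1(S)` preserving the intersection form, modulo the inner ones) and let
`Humphries g` be its subgroup generated by Humphries' `2 g + 1` Dehn twists (it is `Mod_g` by
Humphries' theorem, which is not used).

Let `p` be a prime and let `A` be a ring (not necessarily commutative) with `p ^ e = 0` in `A`, which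
has a locally nilpotent two-sided ideal modulo which it satisfies a multilinear polynomial identity
of degree `k`: for instance any commutative ring (`k = 2`), such as `ℤ / p ^ e`, any algebra over
`ℤ / p ^ e` finite over its centre, or any ring of matrices over a commutative ring. Let
`n * ⌊k / 2⌋ < binom (g - 5) 2` and let `f : Mod_g → GL_n(A)` be any homomorphism. Then
`f (Humphries g)` is finite, the image of the subgroup of level `p` is a finite `p`-group, and if
`f (Humphries g)` has no nontrivial normal `p`-subgroup then `f` kills the subgroup of level `p` and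
its kernel contains a congruence subgroup (which does not depend on `A`, `n`, `k`, `e` and `f`).
-/

set_option autoImplicit false

namespace Pool.Agent.Results.MP_59b15d_al.PIRingsOfPPowerCharacteristic

open Pool.Agent.H29R2.MG Pool.Agent.TH35.MG Pool.Agent.R352.MG Pool.Agent.R665.MGR Pool.Agent.N66.CQ
  Pool.Agent.U379.PI Pool.Agent.Helper58.EN

section defs
variable {g n : ℕ} {A : Type} [Ring A]

/-- The ring `R` has a two-sided ideal `I` which is locally nilpotent (for every finite subset `X` of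
`I` there is `N` such that all products of `N` elements of `X` vanish) and for which `R ⧸ I`
satisfies an identity `∑ σ, c σ * x (σ 1) * ... * x (σ k) = 0`, the `c σ` being integers and
`c 1 = 1`. -/
def NilByPI (k : ℕ) (R : Type) [Ring R] : Prop :=
  ∃ (I : Ideal R) (_ : I.IsTwoSided) (c : Equiv.Perm (Fin k) → ℤ), c 1 = 1 ∧
    (∀ X : Finset R, (X : Set R) ⊆ I → ∃ N : ℕ, ∀ l : List R, (∀ x ∈ l, x ∈ X) → l.length = N →
      l.prod = 0) ∧
    ∀ x : Fin k → R ⧸ I,
      ∑ σ : Equiv.Perm (Fin k), (c σ : R ⧸ I) * (List.ofFn (fun i => x (σ i))).prod = 0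

/-- The elements of the surface group which are zero in `H_1(S; ℤ/p)`. -/
def Gam (g p : ℕ) : Subgroup (SurfaceGroup g) := gam g p

/-- The definition of `Gam`, written out. -/
theorem mem_Gam {g p : ℕ} (x : SurfaceGroup g) :
    x ∈ Gam g p ↔ ∀ j, (p : ℤ) ∣ homologyClass x j := Iff.rfl

/-- The elements of `Humphries g` acting trivially on `H_1(S; ℤ/p)`. -/
def LevelP (g p : ℕ) : Subgroup (Mod g) := Humphries g ⊓ Level g p

/-- The definition of `LevelP`, written out. -/
theorem mem_LevelP {g p : ℕ} (x : Mod g) : x ∈ LevelP g p ↔ x ∈ Humphries g ∧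
    ∀ φ : orientedAut g, classOf g φ = x → ∀ (y : SurfaceGroup g) (j : Fin g ⊕ Fin g),
      (p : ℤ) ∣ homologyClass (φ.1 y) j - homologyClass y j := Iff.rfl

/-- The image of the group generated by Humphries' twists. -/
def Image (f : Mod g →* (Matrix (Fin n) (Fin n) A)ˣ) : Subgroup (Matrix (Fin n) (Fin n) A)ˣ :=
  (Humphries g).map f

/-- The group `f (Humphries g)` has no normal `p`-subgroup other than `1`. -/
def NoNormal (p : ℕ) (f : Mod g →* (Matrix (Fin n) (Fin n) A)ˣ) : Prop :=
  ∀ P : Subgroup (Image f), P.Normal → IsPGroup p P → P = ⊥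

/-- `φ` acts on `π_1(S) / Γ` as an inner automorphism. -/
def InnerModulo (Γ : Subgroup (SurfaceGroup g)) (φ : MulAut (SurfaceGroup g)) : Prop :=
  ∃ y : SurfaceGroup g, ∀ x : SurfaceGroup g, φ x * (y * x * y⁻¹)⁻¹ ∈ Γ

/-- `f` kills the classes, in `Humphries g`, of all the automorphisms which act on `π_1(S) / Γ` as an
inner automorphism. -/
def KillsCongruence (Γ : Subgroup (SurfaceGroup g)) (f : Mod g →* (Matrix (Fin n) (Fin n) A)ˣ) :
    Prop :=
  ∀ φ : orientedAut g, InnerModulo Γ φ.1 → classOf g φ ∈ Humphries g → f (classOf g φ) = 1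

end defs

section proofs
variable {g n k p e : ℕ} {A : Type} [Ring A]

theorem triple_LN (hp : p.Prime) (hpe : (p : A) ^ e = 0) (hA : NilByPIdeg k A)
    (hn : n * (k / 2) < (g - 5).choose 2) :
    ∃ I : Set (Matrix (Fin n) (Fin n) A), LN I ∧
      ∀ f : Mod g →* (Matrix (Fin n) (Fin n) A)ˣ,
        ∀ x ∈ HL g p, ∀ y ∈ HL g p, ∀ z ∈ HL g p,
          ((f x : Matrix (Fin n) (Fin n) A) - 1) * ((f y : Matrix (Fin n) (Fin n) A) - 1) *
            ((f z : Matrix (Fin n) (Fin n) A) - 1) ∈ I := by
  obtain ⟨J, hJ2, hJLN, hJ⟩ := hA.reps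
  refine ⟨{x | ∀ i j, x i j ∈ (J : Set A)}, LN_matrix n hJLN, ?_⟩
  intro f x hx y hy z hz i j
  refine triple_mem J hJ hp hpe hn x y z ?_ f i j
  intro K _ _ d f' hd
  exact triple hd f' x hx.1 y hy z hz.1

theorem level_fg (hg : 7 ≤ g) (hp : p ≠ 0) (f : Mod g →* (Matrix (Fin n) (Fin n) A)ˣ) :
    ((HL g p).map f).FG := by
  have h1 := level_fin g p hp
  have hfg : Group.FG (Humphries g) := (Group.fg_iff_subgroup_fg _).2 (hum_fg hg)
  have h2 : ((Level g p).subgroupOf (Humphries g)).FiniteIndex := inferInstance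
  have h3 : Group.FG ((Level g p).subgroupOf (Humphries g)) := Subgroup.fg_of_index_ne_zero _
  let F : Humphries g →* (Matrix (Fin n) (Fin n) A)ˣ := f.comp (Humphries g).subtype
  have h4 : ((Level g p).subgroupOf (Humphries g)).map F = (HL g p).map f := by
    ext x
    constructor
    · rintro ⟨⟨y, hy⟩, hy2, rfl⟩
      exact ⟨y, ⟨hy, hy2⟩, rfl⟩
    · rintro ⟨y, ⟨hy, hy2⟩, rfl⟩
      exact ⟨⟨y, hy⟩, hy2, rfl⟩
  have h5 : Group.FG ((HL g p).map f) := by
    rw [← h4]
    exact Group.fg_of_surjective (MonoidHom.subgroupMap_surjective F _)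
  exact (Group.fg_iff_subgroup_fg _).1 h5

/-- the image of the subgroup of level `p` is a finite `p`-group -/
theorem lev_finite (hp : p.Prime) (hpe : (p : A) ^ e = 0) (hA : NilByPIdeg k A)
    (hn : n * (k / 2) < (g - 5).choose 2) (f : Mod g →* (Matrix (Fin n) (Fin n) A)ˣ) :
    Finite ((HL g p).map f) ∧ IsPGroup p ((HL g p).map f) := by
  have hg : 7 ≤ g := seven_le hn
  obtain ⟨I, hI, h3⟩ := triple_LN hp hpe hA hn
  have hpM : ((p : Matrix (Fin n) (Fin n) A)) ^ e = 0 := by
    rw [← Nat.cast_pow, ← Matrix.diagonal_natCast, Nat.cast_pow, hpe]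
    simp
  have hqM : ((p ^ e : ℕ) : Matrix (Fin n) (Fin n) A) = 0 := by rw [Nat.cast_pow, hpM]
  have hfin : Finite ((HL g p).map f) := by
    refine finite_units (pow_pos hp.pos e) hqM _ (level_fg hg hp.ne_zero f) I hI ?_
    rintro _ ⟨x, hx, rfl⟩ _ ⟨y, hy, rfl⟩ _ ⟨z, hz, rfl⟩
    exact h3 f x hx y hy z hz
  refine ⟨hfin, ?_⟩
  rintro ⟨_, x, hx, rfl⟩
  have hnil : IsNilpotent ((f x : Matrix (Fin n) (Fin n) A) - 1) := by
    have h4 := h3 f x hx x hx x hx
    obtain ⟨N, hN⟩ := hI {((f x : Matrix (Fin n) (Fin n) A) - 1) *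
      ((f x : Matrix (Fin n) (Fin n) A) - 1) * ((f x : Matrix (Fin n) (Fin n) A) - 1)} (by
        simpa using h4)
    have h5 := hN (List.replicate N (((f x : Matrix (Fin n) (Fin n) A) - 1) *
      ((f x : Matrix (Fin n) (Fin n) A) - 1) * ((f x : Matrix (Fin n) (Fin n) A) - 1))) (by
        intro y hy
        rw [Finset.mem_singleton]
        exact List.eq_of_mem_replicate hy) (by simp)
    rw [List.prod_replicate] at h5
    refine ⟨3 * N, ?_⟩
    rw [pow_mul, pow_succ, pow_two]
    exact h5
  have hf : IsOfFinOrder (f x) := by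
    have h4 : IsOfFinOrder (⟨f x, x, hx, rfl⟩ : (HL g p).map f) := isOfFinOrder_of_finite _
    obtain ⟨m, hm, h5⟩ := isOfFinOrder_iff_pow_eq_one.1 h4
    exact isOfFinOrder_iff_pow_eq_one.2 ⟨m, hm, congrArg Subtype.val h5⟩
  obtain ⟨a, ha⟩ := pow_order hp hpM hnil hf
  exact ⟨a, Subtype.ext ha⟩

theorem image_finite (hp : p.Prime) (hpe : (p : A) ^ e = 0) (hA : NilByPIdeg k A)
    (hn : n * (k / 2) < (g - 5).choose 2) (f : Mod g →* (Matrix (Fin n) (Fin n) A)ˣ) :
    Finite ((Humphries g).map f) := by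
  have h0 := (lev_finite hp hpe hA hn f).1
  have h1 := level_fin g p hp.ne_zero
  have h2 : ((Level g p).subgroupOf (Humphries g)).FiniteIndex := inferInstance
  let F : Humphries g →* (Matrix (Fin n) (Fin n) A)ˣ := f.comp (Humphries g).subtype
  have h3 : F.range = (Humphries g).map f := by
    ext x
    constructor
    · rintro ⟨⟨y, hy⟩, rfl⟩
      exact ⟨y, hy, rfl⟩
    · rintro ⟨y, hy, rfl⟩
      exact ⟨⟨y, hy⟩, rfl⟩
  have h4 : Finite F.range := by
    let L := (Level g p).subgroupOf (Humphries g)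
    have hq : Finite (Humphries g ⧸ L) := Subgroup.finite_quotient_of_finiteIndex
    let m : (Humphries g ⧸ L) × ((HL g p).map f) → (Matrix (Fin n) (Fin n) A)ˣ :=
      fun x => F (Quotient.out x.1) * x.2.1
    have hm : (F.range : Set (Matrix (Fin n) (Fin n) A)ˣ) ⊆ Set.range m := by
      rintro _ ⟨x, rfl⟩
      have h5 : (Quotient.out (QuotientGroup.mk x : Humphries g ⧸ L))⁻¹ * x ∈ L :=
        QuotientGroup.eq.1 (QuotientGroup.out_eq' _)
      let q : Humphries g := (Quotient.out (QuotientGroup.mk x : Humphries g ⧸ L))⁻¹ * x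
      have h6 : F q ∈ (HL g p).map f := ⟨q.1, ⟨q.2, h5⟩, rfl⟩
      refine ⟨⟨QuotientGroup.mk x, ⟨F q, h6⟩⟩, ?_⟩
      show F _ * F _ = F x
      rw [← map_mul, mul_inv_cancel_left]
    exact (Set.finite_range m).subset hm
  rw [← h3]
  exact h4

theorem kill (hp : p.Prime) (hpe : (p : A) ^ e = 0) (hA : NilByPIdeg k A)
    (hn : n * (k / 2) < (g - 5).choose 2) (f : Mod g →* (Matrix (Fin n) (Fin n) A)ˣ)
    (h : ∀ P : Subgroup ((Humphries g).map f), P.Normal → IsPGroup p P → P = ⊥)
    {y : Mod g} (hy : y ∈ HL g p) : f y = 1 := by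
  let P : Subgroup ((Humphries g).map f) := ((HL g p).map f).subgroupOf ((Humphries g).map f)
  have hnor : P.Normal := by
    constructor
    rintro ⟨_, hz⟩ hz2 ⟨_, x, hx, rfl⟩
    obtain ⟨z, hz3, rfl⟩ := Subgroup.mem_subgroupOf.1 hz2
    rw [Subgroup.mem_subgroupOf]
    refine ⟨x * z * x⁻¹, ⟨?_, (level_normal g p).conj_mem z hz3.2 x⟩, ?_⟩
    · exact (Humphries g).mul_mem ((Humphries g).mul_mem hx hz3.1) ((Humphries g).inv_mem hx)
    · rw [map_mul, map_mul, map_inv]
      rfl
  have hpg : IsPGroup p P := by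
    rintro ⟨⟨w, hz⟩, hz2⟩
    have hz3 : w ∈ (HL g p).map f := Subgroup.mem_subgroupOf.1 hz2
    obtain ⟨a, ha⟩ := (lev_finite hp hpe hA hn f).2 ⟨w, hz3⟩
    refine ⟨a, ?_⟩
    have ha2 : w ^ p ^ a = 1 := congrArg Subtype.val ha
    apply Subtype.ext
    apply Subtype.ext
    exact ha2
  have h1 := h P hnor hpg
  have h2 : (⟨f y, ⟨y, hy.1, rfl⟩⟩ : (Humphries g).map f) ∈ P := by
    rw [Subgroup.mem_subgroupOf]
    exact ⟨y, hy, rfl⟩
  rw [h1, Subgroup.mem_bot] at h2
  exact congrArg Subtype.val h2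

/-- the commutative rings -/
theorem comm_nil (C : Type) [CommRing C] : NilByPI 2 C := by
  refine ⟨⊥, inferInstance, fun σ => (Equiv.Perm.sign σ : ℤ), by simp, ?_, ?_⟩
  · intro X hX
    refine ⟨1, fun l hl hlen => ?_⟩
    obtain ⟨x, rfl⟩ := List.length_eq_one_iff.1 hlen
    have h1 : x ∈ (⊥ : Ideal C) := hX (hl x (by simp))
    rw [List.prod_singleton]
    exact (Submodule.mem_bot C).1 h1
  · intro x
    have h1 : ∀ σ : Equiv.Perm (Fin 2), (List.ofFn (fun i => x (σ i))).prod = ∏ i, x i := by
      intro σ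
      rw [List.prod_ofFn]
      exact Equiv.prod_comp σ x
    simp only [h1]
    rw [← Finset.sum_mul, ← Int.cast_sum]
    have h2 : ∑ σ : Equiv.Perm (Fin 2), (Equiv.Perm.sign σ : ℤ) = 0 := by decide
    rw [h2, Int.cast_zero, zero_mul]

end proofs

/-- Let `g` be the genus, let `p` be a prime and let `A` be a ring with `p ^ e = 0` in `A` and with a
locally nilpotent two-sided ideal modulo which it satisfies a multilinear polynomial identity of
degree `k` (every commutative ring has this property with `k = 2`, this is part of the statement).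
Let `n * ⌊k / 2⌋ < binom (g - 5) 2` and let `f : Mod_g → GL_n(A)` be a homomorphism. Let
`Humphries g` be the subgroup of `Mod_g` generated by Humphries' twists (all of `Mod_g` by Humphries'
theorem, which is not used), and let `LevelP g p` be the group of its elements acting trivially on
`H_1(S; ℤ/p)`; it has finite index.
(1) `f (Humphries g)` is finite.
(2) `f (LevelP g p)` is a finite `p`-group.
(3) If `f (Humphries g)` has no normal `p`-subgroup other than `1`, then `f` kills `LevelP g p`, and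
all classes in `Humphries g` of the automorphisms acting on `π_1(S) / Γ` as an inner automorphism,
where `Γ` is the characteristic subgroup of finite index of the elements which are zero in
`H_1(S; ℤ/p)`. -/
theorem result (g n k p e : ℕ) (hp : p.Prime) (hn : n * (k / 2) < (g - 5).choose 2)
    (A : Type) [Ring A] (hpe : (p : A) ^ e = 0) (hA : NilByPI k A)
    (f : Mod g →* (Matrix (Fin n) (Fin n) A)ˣ) :
    (∀ (C : Type) [CommRing C], NilByPI 2 C) ∧
      (∃ T : Mod g, IsTwistAt g 1 T) ∧ (Gam g p).Characteristic ∧ (Gam g p).FiniteIndex ∧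
      ((LevelP g p).subgroupOf (Humphries g)).FiniteIndex ∧
      Finite (Image f) ∧ Finite ((LevelP g p).map f) ∧ IsPGroup p ((LevelP g p).map f) ∧
      (NoNormal p f → (∀ y ∈ LevelP g p, f y = 1) ∧ KillsCongruence (Gam g p) f) := by
  have hg : 7 ≤ g := seven_le hn
  have h1 := level_fin g p hp.ne_zero
  have hA' : NilByPIdeg k A := hA
  refine ⟨fun C _ => comm_nil C, twist_exists_at (by omega) (by omega), gam_char g p,
    gam_fin g p hp.ne_zero, ?_, image_finite hp hpe hA' hn f, (lev_finite hp hpe hA' hn f).1, (lev_finite hp hpe hA' hn f).2,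
    ?_⟩
  · have h2 : (LevelP g p).subgroupOf (Humphries g) = (Level g p).subgroupOf (Humphries g) :=
      Subgroup.inf_subgroupOf_left _ _
    rw [h2]
    infer_instance
  · intro h
    have h5 : ∀ y ∈ HL g p, f y = 1 := fun y hy => kill hp hpe hA' hn f h hy
    exact ⟨h5, fun φ hφ hH => h5 _ ⟨hH, level_of_inner hφ⟩⟩

end Pool.Agent.Results.MP_59b15d_al.PIRingsOfPPowerCharacteristic
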