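import Pool.Agent.U379.TR.Cst2

/-!
# Kernels of the representations of `Mod_g` with small factors, of arbitrary size

Let `Mod_g` be the mapping class group of the closed orientable surface `S` of genus `g ≥ 18` (the
classes of the automorphisms of `π_1(S)` preserving the intersection form, modulo the inner ones) and
let `Humphries g` be its subgroup generated by Humphries' `2 g + 1` Dehn twists (it is `Mod_g` by
Humphries' theorem, which is not used).

(1) Let `Mod_g` act on an abelian group `M` in which `(2 g - 2) x = 0` implies `x = 0`, and let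
`W_0 = 0, W_1, W_2, ...` be a sequence of invariant subgroups with union `M` (for instance a finite
chain) with small factors: `W_{i+1} / (W_i ∩ W_{i+1})` is (contained in) a module with fewer than
`binom (g - 5) 2` generators over a commutative ring which depends on `i`, on which `Mod_g` acts by
linear maps; or `Mod_g` acts on it through a homomorphism to `GL_n(A)`, where `A` is a locally
nilpotent by PI ring of degree `k`, `n * ⌊k / 2⌋ < binom (g - 5) 2`, and where the factor is an
`M_n(A)`-module. There is no condition on the size of `M`. Let `m` be the order of the action of the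
Dehn twist `b_0 ↦ b_0 a_0`, and `m = 0` if it is infinite. Then an element of `Humphries g` acts
trivially on `M` if and only if it acts trivially on `H_1(S; ℤ / m)`. So if the image is finite its
kernel on `Humphries g` is a congruence subgroup.

(2) Let `H` be a subgroup of finite index in `Mod_g`. Then `H` contains a congruence subgroup of
`Humphries g`, of the simplest kind (all `y` in `Humphries g` acting trivially on `H_1(S; ℤ / m)`), or
for every field `K` in which `2 g - 2 ≠ 0` the permutation representation `K[Mod_g / H]` has an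
irreducible constituent of dimension at least `binom (g - 5) 2`.

For `M = K^n`, `K` a field and `n < binom (g - 5) 2` this is the starting result `KernelsLevelP`; then
`m` is `0`, `1` or the characteristic of `K`.
The passage to arbitrary size rests on the following fact. Let
`C` be a commutative ring in which `2 g - 2` is invertible, let `t_0`, `a_1` be two disjoint
nonseparating twists and let `B` be the ideal of the group ring over `C` generated by
`x_0 = (t_0 - 1)^2` and `x_1 = (a_1 - 1) (t_0 - 1)`. Then `B = B^2`. Proof: `C[G] / B` is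
`C ⊕ M_{2g}(C)`, and `C[G] = P ⊕ B` for a finitely generated `P`. Over the field `C / m`, `m`
maximal, every extension of two modules killed by `B` is killed by `B`, since such modules are direct
sums of trivial ones and of copies of the homology (this needs `4 g < binom (g - 5) 2`). By Nakayama's
lemma `B = B^2`. For a module with few generators over a commutative ring we reduce to a Noetherian
ring and obtain `B F ⊆ m^N F` for all `m` and `N`; so `B F = 0` by Krull's intersection theorem.
-/

set_option autoImplicit false

namespace Pool.Agent.Results.MP_59b15d_al.SmallFactorKernels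

open Pool.Agent.H29R2.MG Pool.Agent.TH35.MG Pool.Agent.R352.MG Pool.Agent.R665.MGR Pool.Agent.N66.CQ
  Pool.Agent.U379.PI Pool.Agent.Helper58.EN Module

/-- The ring `R` has a two-sided ideal `I` which is locally nilpotent (for every finite subset `X` of
`I` there is `N` such that all products of `N` elements of `X` vanish) and for which `R ⧸ I`
satisfies an identity `∑ σ, c σ * x (σ 1) * ... * x (σ k) = 0`, the `c σ` being integers and
`c 1 = 1`. -/
def NilByPI (k : ℕ) (R : Type) [Ring R] : Prop :=
  ∃ (I : Ideal R) (_ : I.IsTwoSided) (c : Equiv.Perm (Fin k) → ℤ), c 1 = 1 ∧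
    (∀ X : Finset R, (X : Set R) ⊆ I → ∃ N : ℕ, ∀ l : List R, (∀ x ∈ l, x ∈ X) → l.length = N →
      l.prod = 0) ∧
    ∀ x : Fin k → R ⧸ I,
      ∑ σ : Equiv.Perm (Fin k), (c σ : R ⧸ I) * (List.ofFn (fun i => x (σ i))).prod = 0

section defs
variable {g : ℕ} {M : Type} [AddCommGroup M]

/-- `F` is a module with fewer than `binom (g - 5) 2` generators over a commutative ring, with a
linear action of `Mod_g`, and the homomorphism `π` from `W'` to `F` is equivariant. -/
def FewGenerators (f : Mod g →* AddMonoid.End M) {W' : AddSubgroup M}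
    {F : Type} [AddCommGroup F] (π : W' →+ F) : Prop :=
  ∃ (A : Type) (_ : CommRing A) (_ : Module A F) (n : ℕ) (s : Fin n → F)
    (τ : Mod g →* Module.End A F), n < (g - 5).choose 2 ∧ Submodule.span A (Set.range s) = ⊤ ∧
      ∀ (y : Mod g) (m m' : W'), (m' : M) = f y m → π m' = τ y (π m)

/-- `F` is a module over the ring of the `n × n` matrices over a ring `A` which is locally nilpotent
by PI of degree `k`, `n * ⌊k / 2⌋ < binom (g - 5) 2`, with an action of `Mod_g` through a
homomorphism to `GL_n(A)`, and the homomorphism `π` from `W'` to `F` is equivariant. -/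
def MatrixAction (f : Mod g →* AddMonoid.End M) {W' : AddSubgroup M}
    {F : Type} [AddCommGroup F] (π : W' →+ F) : Prop :=
  ∃ (A : Type) (_ : Ring A) (k n : ℕ) (_ : Module (Matrix (Fin n) (Fin n) A) F)
    (τ : Mod g →* (Matrix (Fin n) (Fin n) A)ˣ), NilByPI k A ∧ n * (k / 2) < (g - 5).choose 2 ∧
      ∀ (y : Mod g) (m m' : W'), (m' : M) = f y m →
        π m' = (τ y : Matrix (Fin n) (Fin n) A) • π m

/-- There is a homomorphism from `W'` to a small module, the kernel of which is contained in `W`. -/
def SmallFactor (f : Mod g →* AddMonoid.End M) (W W' : AddSubgroup M) : Prop :=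
  ∃ (F : Type) (_ : AddCommGroup F) (π : W' →+ F), (∀ m, π m = 0 → (m : M) ∈ W) ∧
    (FewGenerators f π ∨ MatrixAction f π)

/-- There is a sequence `0 = W 0, W 1, W 2, ...` of invariant subgroups with small factors and with
union `M`. -/
def SmallSequence (f : Mod g →* AddMonoid.End M) : Prop :=
  ∃ W : ℕ → AddSubgroup M, W 0 = ⊥ ∧ (∀ m, ∃ i, m ∈ W i) ∧
    (∀ i, ∀ y : Mod g, ∀ m ∈ W i, f y m ∈ W i) ∧ ∀ i, SmallFactor f (W i) (W (i + 1))

/-- The elements of the surface group which are zero in `H_1(S; ℤ/m)`. -/
def Gam (g m : ℕ) : Subgroup (SurfaceGroup g) := gam g m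

/-- The definition of `Gam`, written out. -/
theorem mem_Gam {g m : ℕ} (x : SurfaceGroup g) :
    x ∈ Gam g m ↔ ∀ j, (m : ℤ) ∣ homologyClass x j := Iff.rfl

/-- The elements of `Humphries g` acting trivially on `H_1(S; ℤ/m)`, on `H_1(S; ℤ)` if `m = 0`. -/
def LevelM (g m : ℕ) : Subgroup (Mod g) := Humphries g ⊓ Level g m

/-- The definition of `LevelM`, written out. -/
theorem mem_LevelM {g m : ℕ} (x : Mod g) : x ∈ LevelM g m ↔ x ∈ Humphries g ∧
    ∀ φ : orientedAut g, classOf g φ = x → ∀ (y : SurfaceGroup g) (j : Fin g ⊕ Fin g),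
      (m : ℤ) ∣ homologyClass (φ.1 y) j - homologyClass y j := Iff.rfl

/-- `φ` acts on `π_1(S) / Γ` as an inner automorphism. -/
def InnerModulo (Γ : Subgroup (SurfaceGroup g)) (φ : MulAut (SurfaceGroup g)) : Prop :=
  ∃ y : SurfaceGroup g, ∀ x : SurfaceGroup g, φ x * (y * x * y⁻¹)⁻¹ ∈ Γ

/-- `Γ` is characteristic and of finite index in `π_1(S)`, and the set `X` contains the classes, in
`Humphries g`, of all the automorphisms which act on `π_1(S) / Γ` as an inner automorphism. -/
def ContainsCongruence (Γ : Subgroup (SurfaceGroup g)) (X : Set (Mod g)) : Prop :=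
  Γ.Characteristic ∧ Γ.FiniteIndex ∧
    ∀ φ : orientedAut g, InnerModulo Γ φ.1 → classOf g φ ∈ Humphries g → classOf g φ ∈ X

/-- For the twists `T = (b_0 ↦ b_0 a_0)`: let `m` be the order of `f T`, `0` if it is infinite. The
kernel of `f` on `Humphries g` consists of the elements acting trivially on `H_1(S; ℤ/m)`, `m` divides
all `q` with `q M = 0`, it is positive if `f (Humphries g)` is finite, and if it is positive the
kernel of `f` contains a congruence subgroup of `Humphries g`. -/
def KernelIsLevel (f : Mod g →* AddMonoid.End M) : Prop :=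
  ∀ T : Mod g, IsTwistAt g 0 T →
    (∀ y ∈ Humphries g, f y = 1 ↔ y ∈ LevelM g (orderOf (f T))) ∧
    (∀ q : ℕ, (∀ x : M, q • x = 0) → orderOf (f T) ∣ q) ∧
    ((f '' Humphries g).Finite → IsOfFinOrder (f T)) ∧
    (IsOfFinOrder (f T) → ContainsCongruence (Gam g (orderOf (f T))) {y | f y = 1})

/-- `H` contains all elements of `Humphries g` acting trivially on `H_1(S; ℤ/m)`, for some `m > 0`,
and so a congruence subgroup of `Humphries g`. -/
def ContainsLevel (H : Subgroup (Mod g)) : Prop :=
  ∃ m : ℕ, 0 < m ∧ LevelM g m ≤ H ∧ ContainsCongruence (Gam g m) (H : Set (Mod g))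

/-- The permutation representation `K[Mod_g / H]` has an irreducible constituent of dimension at least
`binom (g - 5) 2`. -/
def LargeConstituentOf (K : Type) [Field K] (H : Subgroup (Mod g)) : Prop :=
  ∃ W1 W2 : Submodule K (MonoidAlgebra K (Mod g ⧸ H)),
    Constituent (Representation.ofMulAction K (Mod g) (Mod g ⧸ H)) W1 W2 ∧
      finrank K W1 + (g - 5).choose 2 ≤ finrank K W2

end defs

/-- the commutative rings -/
theorem comm_nil (C : Type) [CommRing C] : NilByPI 2 C := by
  refine ⟨⊥, inferInstance, fun σ => (Equiv.Perm.sign σ : ℤ), by simp, ?_, ?_⟩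
  · intro X hX
    refine ⟨1, fun l hl hlen => ?_⟩
    obtain ⟨x, rfl⟩ := List.length_eq_one_iff.1 hlen
    have h1 : x ∈ (⊥ : Ideal C) := hX (hl x (by simp))
    rw [List.prod_singleton]
    exact (Submodule.mem_bot C).1 h1
  · intro x
    have h1 : ∀ σ : Equiv.Perm (Fin 2), (List.ofFn (fun i => x (σ i))).prod = ∏ i, x i := by
      intro σ
      rw [List.prod_ofFn]
      exact Equiv.prod_comp σ x
    simp only [h1]
    rw [← Finset.sum_mul, ← Int.cast_sum]
    have h2 : ∑ σ : Equiv.Perm (Fin 2), (Equiv.Perm.sign σ : ℤ) = 0 := by decide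
    rw [h2, Int.cast_zero, zero_mul]

/-- congruence subgroups -/
theorem contains {g m : ℕ} (hm : 0 < m) {X : Set (Mod g)}
    (h : ∀ y ∈ Humphries g, y ∈ LevelM g m → y ∈ X) : ContainsCongruence (Gam g m) X := by
  refine ⟨gam_char g _, gam_fin g _ hm.ne', ?_⟩
  intro φ hφ hH
  exact h _ hH ⟨hH, level_of_inner hφ⟩

/-- Let `g ≥ 18` be the genus. Let `Humphries g` be the subgroup of `Mod_g` generated by Humphries'
twists (all of `Mod_g` by Humphries' theorem, which is not used).
(1) Let `f` be an action of `Mod_g` on an abelian group `M` of any size, in which `(2 g - 2) x = 0`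
implies `x = 0`, and let there be a sequence `0 = W_0, W_1, ...` of invariant subgroups with union
`M` with small factors. Let `T` be the Dehn twist `b_0 ↦ b_0 a_0` and let `m` be the order of `f(T)`
(`0` if it is infinite). An element of `Humphries g` acts trivially on `M` if and only if it acts
trivially on `H_1(S; ℤ/m)`. If `q M = 0` then `m` divides `q`. If `f(T)` has finite order, for
instance if `f (Humphries g)` is finite, the kernel of `f` contains a congruence subgroup of
`Humphries g`: the classes in `Humphries g` of the automorphisms acting on `π_1(S) / Γ` as an inner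
automorphism, where `Γ` is the characteristic subgroup of finite index of the elements which are zero
in `H_1(S; ℤ/m)`.
(2) Let `H` be a subgroup of finite index in `Mod_g` and let `K` be a field with `2 g - 2 ≠ 0` in
`K`. Then there is `m > 0` such that `H` contains all elements of `Humphries g` which act trivially
on `H_1(S; ℤ/m)`, and in particular a congruence subgroup of `Humphries g` as in (1), or the
permutation representation `K[Mod_g / H]` has an irreducible constituent of dimension at least
`binom (g - 5) 2`. -/
theorem result (g : ℕ) (hg : 18 ≤ g) :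
    (∀ (C : Type) [CommRing C], NilByPI 2 C) ∧ (∃ T : Mod g, IsTwistAt g 0 T) ∧
      (∀ (M : Type) [AddCommGroup M] (f : Mod g →* AddMonoid.End M),
        (∀ x : M, (2 * g - 2) • x = 0 → x = 0) → SmallSequence f → KernelIsLevel f) ∧
      ∀ (K : Type) [Field K] (H : Subgroup (Mod g)), ((2 * g - 2 : ℕ) : K) ≠ 0 → H.FiniteIndex →
        ContainsLevel H ∨ LargeConstituentOf K H := by
  have hT0 : ∀ T : Mod g, IsTwistAt g 0 T → T ∈ Humphries g := by
    intro T hT
    rw [twist_eq_at (by omega) (by omega) _ hT,
      ← twist_eq_at (by omega) (by omega) _ (tt_zero (by omega))]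
    exact tt_mem (by omega)
  refine ⟨fun C _ => comm_nil C, twist_exists_at (by omega) (by omega), ?_, ?_⟩
  · rintro M _ f htf ⟨W, h0, hun, hW, hfac⟩ T hT
    obtain ⟨h1, h2⟩ := U379.TR.Fi.kernel3 hg htf f W h0 hun hW hfac hT
    refine ⟨fun y hy => ?_, h2, ?_, ?_⟩
    · rw [h1 y hy]
      exact ⟨fun h => ⟨hy, h⟩, fun h => h.2⟩
    · intro hfin
      have h3 : Finite ((Humphries g).map f.toHomUnits) := by
        apply Set.Finite.to_subtype
        apply Set.Finite.of_finite_image (f := fun u : (AddMonoid.End M)ˣ => (u : AddMonoid.End M))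
        · refine hfin.subset ?_
          rintro _ ⟨_, ⟨y, hy, rfl⟩, rfl⟩
          exact ⟨y, hy, rfl⟩
        · exact Units.val_injective.injOn
      have h4 : IsOfFinOrder (⟨f.toHomUnits T, T, hT0 T hT, rfl⟩ : (Humphries g).map f.toHomUnits) :=
        isOfFinOrder_of_finite _
      obtain ⟨d, hd, h5⟩ := isOfFinOrder_iff_pow_eq_one.1 h4
      refine isOfFinOrder_iff_pow_eq_one.2 ⟨d, hd, ?_⟩
      exact congrArg (fun u : (Humphries g).map f.toHomUnits => (u.1 : AddMonoid.End M)) h5
    · intro hfin
      exact contains hfin.orderOf_pos fun y hy h => (h1 y hy).2 h.2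
  · intro K _ H hK hH
    by_cases hcon : LargeConstituentOf K H
    · exact Or.inr hcon
    · left
      unfold LargeConstituentOf at hcon
      push Not at hcon
      obtain ⟨T, hT⟩ : ∃ T : Mod g, IsTwistAt g 0 T := twist_exists_at (by omega) (by omega)
      set ρ : Mod g →* Module.End K (MonoidAlgebra K (Mod g ⧸ H)) :=
        Representation.ofMulAction K (Mod g) (Mod g ⧸ H) with hρ
      have hfin : Module.Finite K (MonoidAlgebra K (Mod g ⧸ H)) :=
        Module.Finite.equiv (MonoidAlgebra.coeffLinearEquiv K).symm
      have h1 := U379.TR.Fi.kernel_constituents hg hK ρ hcon hT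
      have hs : ∀ (y : Mod g) (x : Mod g ⧸ H) (c : K),
          ρ y (MonoidAlgebra.single x c) = MonoidAlgebra.single (y • x) c := fun y x c =>
        Representation.ofMulAction_single _ _ _
      have hfix : ∀ y : Mod g, (∀ x : Mod g ⧸ H, y • x = x) → ρ y = 1 := by
        intro y hy
        apply MonoidAlgebra.lhom_ext'
        intro x
        apply LinearMap.ext
        intro c
        refine (hs y x c).trans ?_
        rw [hy]
        rfl
      have hord : IsOfFinOrder (ρ T) := by
        have h2 : IsOfFinOrder (MulAction.toPermHom (Mod g) (Mod g ⧸ H) T) :=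
          isOfFinOrder_of_finite _
        obtain ⟨d, hd, h5⟩ := isOfFinOrder_iff_pow_eq_one.1 h2
        refine isOfFinOrder_iff_pow_eq_one.2 ⟨d, hd, ?_⟩
        rw [← map_pow] at h5 ⊢
        exact hfix _ fun x => DFunLike.congr_fun h5 x
      have hmem : ∀ y : Mod g, ρ y = 1 → y ∈ H := by
        intro y hy
        have h2 : ρ y (MonoidAlgebra.single ((1 : Mod g) : Mod g ⧸ H) (1 : K)) =
            MonoidAlgebra.single ((1 : Mod g) : Mod g ⧸ H) (1 : K) := by rw [hy]; rfl
        rw [hs] at h2
        have h3 : y • ((1 : Mod g) : Mod g ⧸ H) = ((1 : Mod g) : Mod g ⧸ H) :=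
          MonoidAlgebra.single_left_injective one_ne_zero h2
        have h6 : ((y * 1 : Mod g) : Mod g ⧸ H) = ((1 : Mod g) : Mod g ⧸ H) := h3
        have h7 := QuotientGroup.eq.1 h6.symm
        simpa using h7
      refine ⟨orderOf (ρ T), hord.orderOf_pos, ?_, ?_⟩
      · rintro y ⟨hy, hy'⟩
        exact hmem y ((h1 y hy).2 hy')
      · exact contains hord.orderOf_pos fun y hy h => hmem y ((h1 y hy).2 h.2)

end Pool.Agent.Results.MP_59b15d_al.SmallFactorKernels
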