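import Pool.Agent.U379.TR.Ser2

/-!
# Quotients of `Mod_g` with a series with small abelian factors

Let `Mod_g` be the mapping class group of the closed orientable surface `S` of genus `g ≥ 18` (the
classes of the automorphisms of `π_1(S)` preserving the intersection form, modulo the inner ones) and
let `Humphries g` be its subgroup generated by Humphries' `2 g + 1` Dehn twists (it is `Mod_g` by
Humphries' theorem, which is not used).

Let `f` be a homomorphism from `Mod_g` to any group `Q`, finite or infinite, and let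
`N_0 ⊇ N_1 ⊇ N_2 ⊇ ...` be subgroups normalized by `f(Mod_g)`, with `f(Mod_g) ≤ N_0` and trivial
intersection (for instance a finite series). Let each factor `N_i / N_{i+1}` be of one of two kinds.

* `SmallAbelian`: it is abelian, has no `(2 g - 2)`-torsion, and it embeds equivariantly in a small
  module: a module with fewer than `binom (g - 5) 2` generators over a commutative ring on which
  `Mod_g` acts by linear maps, or a module over `M_n(A)` on which `Mod_g` acts through `GL_n(A)`,
  where `A` is locally nilpotent by PI of degree `k` and `n * ⌊k / 2⌋ < binom (g - 5) 2`. For instance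
  a finite abelian group of order prime to `2 g - 2` and rank less than `binom (g - 5) 2`.
* `TorelliTrivial`: the Torelli group acts trivially on it, and `Mod_g` acts trivially on its centre.
  For instance: a factor on which `Mod_g` acts trivially; a factor without centre on which the Torelli
  group acts trivially; the first factor `N_0 / N_1`, if it is a quotient of `Sp_{2g}(ℤ)`.

Then (1) `f(x)` commutes with `f(Humphries g)` for all `x` in `Humphries g` acting trivially on the
homology; (2) the image of `Humphries g` in `N_i / N_{i+1}` is central for each small abelian factor;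
(3) if all the factors from `k` on are small abelian or have trivial action, `N_k` and
`f(Humphries g)` intersect in central elements of `f(Humphries g)`.

For example: a quotient of `Mod_g` which is an extension of a quotient of `Sp_{2g}(ℤ)` by a group with
small abelian factors without `(2 g - 2)`-torsion is a central extension. The hypothesis on the
torsion cannot be omitted: `Mod_g` has a quotient in the semidirect product of `Sp_{2g}(ℤ/(2g-2))` and
`H_1(S; ℤ/(2g-2))` in which the Torelli group is not central (Earle, Morita; the restriction to the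
Torelli group is the Chillingworth class).

Proof. For a small module `V` without `(2 g - 2)`-torsion all extensions of `ℤ` by `V` are known (they
have matrix units, as in my `SmallFactorKernels`), so `H^1(Γ; V) = 0` for the group `Γ` generated by
Lickorish' twists, and the Torelli group acts trivially on `V`. Let `x` be in the Torelli group and
assume that `f(x)` is central modulo `N_i`. Then `y ↦ [f(x), f(y)]` is a crossed homomorphism to
`N_i / N_{i+1} = V`, so it is `y v - v` for some `v`. Let `ι` be in `Γ` and act as `-1` on the homology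
and put `d(x) = [f(x), f(ι)] = ι v - v`. This `d` is an equivariant homomorphism from the Torelli group
to `V` with values in the `-1`-eigenspace of `ι`. Now `y ↦ d([ι, y])` is a crossed homomorphism defined
on the whole group, so it is `y w - w`, and it vanishes on the Torelli group. But
`d([ι, x]) = ι d(x) - d(x) = - 2 d(x)`. So `d = 0`, and `v` is fixed by `Γ`.
-/

set_option autoImplicit false

namespace Pool.Agent.Results.MP_59b15d_al.SmallSeries

open Pool.Agent.H29R2.MG Pool.Agent.TH35.MG Pool.Agent.R352.MG Pool.Agent.R665.MGR Pool.Agent.N66.CQ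
open Pool.Agent.Q290.MG (homMat)

/-- The ring `R` has a two-sided ideal `I` which is locally nilpotent (for every finite subset `X` of
`I` there is `N` such that all products of `N` elements of `X` vanish) and for which `R ⧸ I`
satisfies an identity `∑ σ, c σ * x (σ 1) * ... * x (σ k) = 0`, the `c σ` being integers and
`c 1 = 1`. -/
def NilByPI (k : ℕ) (R : Type) [Ring R] : Prop :=
  ∃ (I : Ideal R) (_ : I.IsTwoSided) (c : Equiv.Perm (Fin k) → ℤ), c 1 = 1 ∧
    (∀ X : Finset R, (X : Set R) ⊆ I → ∃ N : ℕ, ∀ l : List R, (∀ x ∈ l, x ∈ X) → l.length = N →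
      l.prod = 0) ∧
    ∀ x : Fin k → R ⧸ I,
      ∑ σ : Equiv.Perm (Fin k), (c σ : R ⧸ I) * (List.ofFn (fun i => x (σ i))).prod = 0

section defs
variable {g : ℕ} {X : Type} [AddCommGroup X] {Q : Type} [Group Q]

/-- `y` is in the Torelli group: it acts trivially on `H_1(S; ℤ)`. -/
def InTorelli (y : Mod g) : Prop :=
  ∀ φ : orientedAut g, classOf g φ = y → ∀ x : SurfaceGroup g,
    homologyClass (φ.1 x) = homologyClass x

/-- `X` is a module with fewer than `binom (g - 5) 2` generators over a commutative ring `A`, and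
`Mod_g` acts by `A`-linear maps. -/
def FewGenerators (ρ : Mod g →* AddMonoid.End X) : Prop :=
  ∃ (A : Type) (_ : CommRing A) (_ : Module A X) (n : ℕ) (s : Fin n → X),
    n < (g - 5).choose 2 ∧ Submodule.span A (Set.range s) = ⊤ ∧
      ∀ (y : Mod g) (r : A) (x : X), ρ y (r • x) = r • ρ y x

/-- `X` is a module over the ring of the `n × n` matrices over a ring `A` which is locally nilpotent
by PI of degree `k`, `n * ⌊k / 2⌋ < binom (g - 5) 2`, and `Mod_g` acts through a homomorphism to
`GL_n(A)`. -/
def MatrixAction (ρ : Mod g →* AddMonoid.End X) : Prop :=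
  ∃ (A : Type) (_ : Ring A) (k n : ℕ) (_ : Module (Matrix (Fin n) (Fin n) A) X)
    (τ : Mod g →* (Matrix (Fin n) (Fin n) A)ˣ), NilByPI k A ∧ n * (k / 2) < (g - 5).choose 2 ∧
      ∀ (y : Mod g) (x : X), ρ y x = (τ y : Matrix (Fin n) (Fin n) A) • x

/-- `N' / N` is abelian, without `(2 g - 2)`-torsion, and it embeds equivariantly (by `π`) in a small
module. -/
def SmallAbelian (f : Mod g →* Q) (N N' : Subgroup Q) : Prop :=
  (∀ s ∈ N', s ^ (2 * g - 2) ∈ N → s ∈ N) ∧
  ∃ (X : Type) (_ : AddCommGroup X) (ρ : Mod g →* AddMonoid.End X) (π : Q → X),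
    (FewGenerators ρ ∨ MatrixAction ρ) ∧
    (∀ s ∈ N', ∀ t ∈ N', π (s * t) = π s + π t) ∧ (∀ s ∈ N', π s = 0 ↔ s ∈ N) ∧
    ∀ y : Mod g, ∀ s ∈ N', π (f y * s * (f y)⁻¹) = ρ y (π s)

/-- The Torelli group acts trivially on `N' / N` and `Mod_g` acts trivially on its centre. -/
def TorelliTrivial (f : Mod g →* Q) (N N' : Subgroup Q) : Prop :=
  (∀ y : Mod g, InTorelli y → ∀ s ∈ N', f y * s * (f y)⁻¹ * s⁻¹ ∈ N) ∧
    ∀ s ∈ N', (∀ t ∈ N', s * t * s⁻¹ * t⁻¹ ∈ N) → ∀ y : Mod g, f y * s * (f y)⁻¹ * s⁻¹ ∈ N

/-- `Mod_g` acts trivially on `N' / N`. -/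
def ActsTrivially (f : Mod g →* Q) (N N' : Subgroup Q) : Prop :=
  ∀ y : Mod g, ∀ s ∈ N', f y * s * (f y)⁻¹ * s⁻¹ ∈ N

/-- `N_0 ⊇ N_1 ⊇ ...` is a series of subgroups normalized by `f(Mod_g)`, with `f(Mod_g) ≤ N_0` and
with trivial intersection; all its factors are small abelian or Torelli-trivial. -/
structure GoodSeries (f : Mod g →* Q) (N : ℕ → Subgroup Q) : Prop where
  zero : ∀ y, f y ∈ N 0
  anti : ∀ i, N (i + 1) ≤ N i
  bot : ∀ s, (∀ i, s ∈ N i) → s = 1
  inv : ∀ i, ∀ y : Mod g, ∀ s ∈ N i, f y * s * (f y)⁻¹ ∈ N i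
  factors : ∀ i, SmallAbelian f (N (i + 1)) (N i) ∨ TorelliTrivial f (N (i + 1)) (N i)

end defs

theorem torelli_iff {g : ℕ} (y : Mod g) : InTorelli y ↔ homMat g y = 1 := by
  have h1 : homMat g y = 1 ↔ y ∈ Level g 0 := by
    rw [U379.TR.Fi.mem_Level]
    constructor
    · intro h i j
      rw [h, sub_self]
      exact dvd_zero _
    · intro h
      rw [← sub_eq_zero]
      ext i j
      have := h i j
      rwa [Nat.cast_zero, zero_dvd_iff] at this
  rw [h1]
  show InTorelli y ↔ ∀ φ : orientedAut g, classOf g φ = y → ∀ (x : SurfaceGroup g)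
    (j : Fin g ⊕ Fin g), ((0 : ℕ) : ℤ) ∣ homologyClass (φ.1 x) j - homologyClass x j
  constructor
  · intro h φ hφ x j
    rw [h φ hφ x, sub_self]
    exact dvd_zero _
  · intro h φ hφ x
    funext j
    have := h φ hφ x j
    rw [Nat.cast_zero, zero_dvd_iff] at this
    exact sub_eq_zero.1 this

/-- Let `g ≥ 18` be the genus and let `f` be a homomorphism from `Mod_g` to a group `Q`, with a series
`N_0 ⊇ N_1 ⊇ ...` of subgroups normalized by `f(Mod_g)`, with `f(Mod_g) ≤ N_0` and with trivial
intersection, such that each factor is small abelian or Torelli-trivial. Let `Humphries g` be the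
subgroup of `Mod_g` generated by Humphries' twists (all of `Mod_g` by Humphries' theorem, which is not
used).
(1) If `x` in `Humphries g` acts trivially on `H_1(S; ℤ)` then `f(x)` commutes with
`f(Humphries g)`.
(2) If `N_i / N_{i+1}` is small abelian, the elements of `f(Humphries g)` which are in `N_i` commute
with `f(Humphries g)` modulo `N_{i+1}`.
(3) If all the factors `N_i / N_{i+1}`, `i ≥ k`, are small abelian or have trivial action of `Mod_g`,
the elements of `f(Humphries g)` which are in `N_k` commute with `f(Humphries g)`. -/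
theorem result (g : ℕ) (hg : 18 ≤ g) (Q : Type) [Group Q] (f : Mod g →* Q)
    (N : ℕ → Subgroup Q) (hN : GoodSeries f N) :
    (∀ x ∈ Humphries g, InTorelli x → ∀ y ∈ Humphries g, f x * f y = f y * f x) ∧
    (∀ i, SmallAbelian f (N (i + 1)) (N i) → ∀ x ∈ Humphries g, f x ∈ N i →
      ∀ y ∈ Humphries g, f x * f y * (f x)⁻¹ * (f y)⁻¹ ∈ N (i + 1)) ∧
    ∀ k, (∀ i, k ≤ i →
        SmallAbelian f (N (i + 1)) (N i) ∨ ActsTrivially f (N (i + 1)) (N i)) →
      ∀ x ∈ Humphries g, f x ∈ N k → ∀ y ∈ Humphries g, f x * f y = f y * f x := by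
  have hab : ∀ i, SmallAbelian f (N (i + 1)) (N i) →
      U379.TR.Fi.AbStep f (N (i + 1)) (N i) := fun i h => h
  have htor : ∀ i, TorelliTrivial f (N (i + 1)) (N i) →
      U379.TR.Fi.TorStep f (N (i + 1)) (N i) :=
    fun i h => ⟨fun y hy => h.1 y ((torelli_iff y).2 hy), h.2⟩
  obtain ⟨h1, h2, h3⟩ := U379.TR.Fi.series hg f N hN.zero hN.inv
    (fun i => (hN.factors i).imp (hab i) (htor i))
  have hcomm : ∀ a b : Q, (∀ i, a * b * a⁻¹ * b⁻¹ ∈ N i) → a * b = b * a := fun a b h =>
    U379.TR.Fi.cm_eq_one.1 (hN.bot _ h)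
  refine ⟨?_, ?_, ?_⟩
  · intro x hx ht y hy
    exact hcomm _ _ fun i => h1 i x hx ((torelli_iff x).1 ht) y hy
  · intro i h x hx hxN y hy
    exact h2 i (hab i h) x hx hxN y hy
  · intro k h x hx hxN y hy
    have h4 := h3 k (fun i hi => (h i hi).imp (hab i) id) x hx hxN
    apply hcomm
    intro i
    by_cases hi : k ≤ i
    · exact h4 i hi y hy
    · have hle : N k ≤ N i := antitone_nat_of_succ_le hN.anti (by omega)
      exact hle (h4 k le_rfl y hy)

end Pool.Agent.Results.MP_59b15d_al.SmallSeries
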