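import Pool.Agent.U670.SG.Sdb
import Pool.Agent.U670.CV.Fin

/-!
# The congruence topology on the virtually abelian subgroups of the mapping class group

Let `S` be the closed orientable surface of genus `g ≥ 2`, `π` its fundamental group and let `A` be a
finitely generated virtually abelian subgroup of `Mod_S = Out (π)`. (By the theorem of Birman, Lubotzky
and McCarthy, Ivanov, McCarthy every subgroup of `Mod_S` without nonabelian free subgroups is of this
form.) For a characteristic subgroup `K` of finite index of `π` let `Γ(K)` be the kernel of
`Out (π) → Out (π / K)`, a congruence subgroup.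

(1) Every subgroup `V` of finite index of `A` contains `A ∩ Γ(K)` for some `K`: the congruence topology
of `Mod_S` induces on `A` the full profinite topology. In particular this holds for the group generated
by a pseudo-Anosov class, for the groups generated by Dehn twists about disjoint curves and for the
products of such groups on disjoint subsurfaces.

(2) `A` is closed in the congruence topology: for every `φ` in `Mod_S` which is not in `A` there is a
`K` such that the image of `φ` in `Out (π / K)` is not in the image of `A`.

Proof. Let `P_c` be the group of the functions `π → ℤ` which are polynomial of degree less than `c` (all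
`c`-fold differences vanish) and are constant on conjugacy classes. It is finitely generated and free,
and `Out (π)` acts on it; the elements of `Γ(K)` act trivially modulo `m` for a suitable `K`. The kernels
in `A` (abelian) of the actions on `P_c`, `c ≥ 2`, form a chain with torsion-free quotients, and the main
point is that the intersection is trivial: *an automorphism `φ` of `π` which fixes all polynomial class
functions is inner* (`Pool.Agent.U670.SG.surf_inner`). For free groups this was proved in
`MP_181555_al.VirtuallyAbelianSubgroups`. It follows that `φ` induces an inner automorphism of every free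
quotient of `π`. For even `g` the surface is the double of a surface with one boundary component `c`, for
odd `g` of a surface with two boundary components `c`, `r`; let `F` be the free fundamental group of the
half. The foldings composed with the `n`-th powers of the Dehn twists are retractions `f_n : π → F`. Let
`f_n ∘ φ` be `f_n` followed by the conjugation with `c_n`. If all the elements `f_n (y)` are conjugate to
the same element then `y` is conjugate to an element of one of the two halves: otherwise `f_n (y)` is
conjugate to a product `z_1^n v_1 z_2^{-n} u_1 z_3^n ⋯` with `z_i` in `{c, r}` and no two neighbours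
commuting, and then `|f_n (y)^2| - |f_n (y)|` tends to infinity. Hence `φ` maps two of the standard
generators `p`, `q` of the first half to conjugates. If `φ (p) = p` then `c_n` is a power of `p`, and the
abelianization shows that the exponent does not depend on `n`; so `φ` is the conjugation with this power
of `p`, since the intersection of the kernels of the `f_n` is trivial.

The rest is as for free groups: `A` acts faithfully on some `P_c`, let `R` be a commutative subring of
`End (P_c)` which contains the image of `A`. For commutative rings `R` which are finite over `ℤ` every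
subgroup of finite index of a finitely generated group of units contains the elements which are `1`
modulo `m`, for some `m` (a form of Chevalley's theorem).
-/

set_option autoImplicit false

namespace Pool.Agent.Results.MP_59b15d_al.VirtuallyAbelianSubgroups

open Pool.Agent.U670.CV Pool.Agent.U670.SG

/-- The relator `[a_1, b_1] ⋯ [a_g, b_g]` of the surface group. -/
def relator (g : ℕ) : FreeGroup (Fin g ⊕ Fin g) :=
  (List.ofFn (fun i : Fin g =>
    FreeGroup.of (Sum.inl i : Fin g ⊕ Fin g) * FreeGroup.of (Sum.inr i : Fin g ⊕ Fin g) *
    (FreeGroup.of (Sum.inl i : Fin g ⊕ Fin g))⁻¹ *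
    (FreeGroup.of (Sum.inr i : Fin g ⊕ Fin g))⁻¹)).prod

/-- The fundamental group of the closed orientable surface of genus `g`. -/
def SurfaceGroup (g : ℕ) : Type :=
  PresentedGroup ({relator g} : Set (FreeGroup (Fin g ⊕ Fin g)))

instance (g : ℕ) : Group (SurfaceGroup g) :=
  inferInstanceAs (Group (PresentedGroup ({relator g} : Set (FreeGroup (Fin g ⊕ Fin g)))))

/-- The outer automorphism group: `Inn G` is the range of `MulAut.conj`. For the surface group it is
the extended mapping class group. -/
abbrev Out (G : Type) [Group G] : Type := MulAut G ⧸ Inn G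

/-- The outer automorphism `a` induces the trivial outer automorphism of `G / K`: for some automorphism
`φ` in the class `a` and some `g` we have `φ x = g x g⁻¹` modulo `K` for all `x`. (For `K`
characteristic this holds for one automorphism in the class if and only if it holds for all.) -/
def InnerMod {G : Type} [Group G] (K : Subgroup G) (a : Out G) : Prop :=
  ∃ φ : MulAut G, (QuotientGroup.mk φ : Out G) = a ∧ ∃ g : G, ∀ x, φ x * (g * x * g⁻¹)⁻¹ ∈ K

/-- All automorphisms in the class. -/
theorem InnerMod.all {G : Type} [Group G] {K : Subgroup G} [hK : K.Normal] {a : Out G}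
    (h : InnerMod K a) (ψ : MulAut G) (hψ : (QuotientGroup.mk ψ : Out G) = a) :
    ∃ g : G, ∀ x, ψ x * (g * x * g⁻¹)⁻¹ ∈ K := by
  obtain ⟨φ, hφ, g, hg⟩ := h
  have h1 : (QuotientGroup.mk ψ : Out G) = QuotientGroup.mk φ := hψ.trans hφ.symm
  have h2 : ψ * φ⁻¹ ∈ Inn G := by
    have h3 := (innNormal G).conj_mem _ (QuotientGroup.eq.1 h1.symm) φ
    have h4 : φ * (φ⁻¹ * ψ) * φ⁻¹ = ψ * φ⁻¹ := by group
    rwa [h4] at h3
  obtain ⟨u, hu⟩ := h2
  refine ⟨u * g, fun x => ?_⟩
  have h5 : ψ x = u * φ x * u⁻¹ := by
    have h6 := DFunLike.congr_fun hu (φ x)
    rw [MulAut.conj_apply, MulAut.mul_apply] at h6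
    have h7 : (φ⁻¹ : MulAut G) (φ x) = x := by
      rw [← MulAut.mul_apply, inv_mul_cancel, MulAut.one_apply]
    rw [h7] at h6
    exact h6.symm
  have h8 : ψ x * (u * g * x * (u * g)⁻¹)⁻¹ = u * (φ x * (g * x * g⁻¹)⁻¹) * u⁻¹ := by
    rw [h5]
    group
  rw [h8]
  exact hK.conj_mem _ (hg x) u

/-- The subgroup `A` is virtually abelian: some subgroup of finite index is commutative. -/
def VirtuallyAbelian {Γ : Type} [Group Γ] (A : Subgroup Γ) : Prop :=
  ∃ B ≤ A, B.relIndex A ≠ 0 ∧ ∀ x ∈ B, ∀ y ∈ B, x * y = y * x

theorem mem_of_innerMod {G : Type} [Group G] {K : Subgroup G} (hK : K.Characteristic) {a : Out G}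
    (h : InnerMod K a) : a ∈ (actK K).map (QuotientGroup.mk' (Inn G)) := by
  obtain ⟨φ, rfl, g, hg⟩ := h
  refine ⟨(MulAut.conj g)⁻¹ * φ, ?_, ?_⟩
  · intro x
    have h3 : ((MulAut.conj g)⁻¹ * φ : MulAut G) x * x⁻¹ =
        (MulAut.conj g)⁻¹ (φ x * (g * x * g⁻¹)⁻¹) := by
      rw [MulAut.mul_apply, map_mul, map_inv, MulAut.conj_inv_apply, MulAut.conj_inv_apply]
      group
    change ((MulAut.conj g)⁻¹ * φ : MulAut G) x * x⁻¹ ∈ K
    rw [h3]
    exact Subgroup.characteristic_iff_le_comap.1 hK ((MulAut.conj g)⁻¹) (hg x)
  · change (QuotientGroup.mk ((MulAut.conj g)⁻¹ * φ) : Out G) = QuotientGroup.mk φ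
    rw [QuotientGroup.eq]
    refine ⟨(φ⁻¹ : MulAut G) g, ?_⟩
    ext x
    simp [MulAut.conj_apply]

/-- The congruence topology induces on `A` the full profinite topology: every subgroup `V` of finite
index of `A` contains the elements of `A` which act trivially on `G / K`, as outer automorphisms, for
some characteristic subgroup `K` of finite index. -/
def FullTopology {G : Type} [Group G] (A : Subgroup (Out G)) : Prop :=
  ∀ V ≤ A, V.relIndex A ≠ 0 → ∃ K : Subgroup G, K.Characteristic ∧ K.FiniteIndex ∧
    ∀ a ∈ A, InnerMod K a → a ∈ V

/-- `A` is closed in the congruence topology: for every `φ` in `Out G` which is not in `A` there is a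
characteristic subgroup `K` of finite index such that no product `a φ`, `a ∈ A`, acts trivially on
`G / K`. -/
def CongruenceClosed {G : Type} [Group G] (A : Subgroup (Out G)) : Prop :=
  ∀ φ, φ ∉ A → ∃ K : Subgroup G, K.Characteristic ∧ K.FiniteIndex ∧
    ∀ a ∈ A, ¬ InnerMod K (a * φ)

theorem full_and_closed {G : Type} [Group G] (h1 : Pool.Agent.U670.CV.Top (CC (Inn G)))
    (A : Subgroup (Out G)) (hA : A.FG) (hv : VirtuallyAbelian A) :
    FullTopology A ∧ CongruenceClosed A := by
  obtain ⟨B, hBA, hfi, hB⟩ := hv
  have hBfg := fg_of_relIndex hBA hA hfi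
  constructor
  · intro V hVA hV
    obtain ⟨_, ⟨K, hK1, hK2, rfl⟩, h3⟩ := h1.vopen A B hBA hBfg hB hfi V hVA hV
    exact ⟨K, hK1, hK2, fun a ha h => h3 ⟨mem_of_innerMod hK1 h, ha⟩⟩
  · intro φ hφ
    obtain ⟨_, ⟨K, hK1, hK2, rfl⟩, h3⟩ := h1.vclosed A B hBA hBfg hB hfi φ hφ
    exact ⟨K, hK1, hK2, fun a ha h => h3 a ha (mem_of_innerMod hK1 h)⟩

/-- **The congruence topology on virtually abelian subgroups.** Let `π` be the fundamental group of
the closed orientable surface `S` of genus `g ≥ 2` and `A` a finitely generated virtually abelian
subgroup of `Mod_S = Out (π)`. The congruence topology induces on `A` the full profinite topology, and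
`A` is closed in the congruence topology. -/
theorem result (g : ℕ) (hg : 2 ≤ g) (A : Subgroup (Out (SurfaceGroup g))) (hA : A.FG)
    (hv : VirtuallyAbelian A) : FullTopology A ∧ CongruenceClosed A := by
  have h1 : Pool.Agent.U670.CV.Top (CC (Inn (SGr g))) :=
    top_CC (adm_of (surf_inner hg)) (surf_ab g)
  exact full_and_closed h1 A hA hv

end Pool.Agent.Results.MP_59b15d_al.VirtuallyAbelianSubgroups
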